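import Pool.Agent.Y917.UF.Tens
import Pool.Agent.Y453.UF.Stm2

/-! The tensor part on `Z^9 ⊗ Z^4` is hyperbolic (job of helper453; adapted from helper917). -/

set_option autoImplicit false

namespace Pool.Agent.Y675.UFT

open Pool.Agent.Y453.UF Pool.Agent.Y917.UF Finset

/-- the matrices `1`, `E12`, `E21` -/
def WW (i : Fin 3) (c c' : Fin 2) : ℤ :=
  if i = 0 then (if c = c' then 1 else 0)
  else if i = 1 then (if c = 0 ∧ c' = 1 then 1 else 0)
  else (if c = 1 ∧ c' = 0 then 1 else 0)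

/-- the matrix `∑ al9 i ⊗ W i` -/
def K9 (x y : Fin 9 × Fin 2) : ℤ := ∑ i, al9 i x.1 y.1 * WW i x.2 y.2

/-- its inverse -/
def L9 (x y : Fin 9 × Fin 2) : ℤ :=
  if x.1.val < 3 ∧ y.1.val < 3 then
    L6 ⟨(2 * x.1.val + x.2.val) % 6, Nat.mod_lt _ (by norm_num)⟩
      ⟨(2 * y.1.val + y.2.val) % 6, Nat.mod_lt _ (by norm_num)⟩
  else if x.2 = y.2 then -al9 0 x.1 y.1 else 0

theorem KL : ∀ x y, ∑ z, K9 x z * L9 z y = if x = y then 1 else 0 := by
  decide +kernel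

theorem LK : ∀ x y, ∑ z, L9 x z * K9 z y = if x = y then 1 else 0 := by
  decide +kernel

/-- the alternating matrices -/
def BB (i : Fin 3) (j k : Fin 4) : ℤ :=
  if j.val < 2 ∧ 2 ≤ k.val then
    WW i ⟨j.val % 2, Nat.mod_lt _ (by norm_num)⟩ ⟨k.val % 2, Nat.mod_lt _ (by norm_num)⟩
  else if 2 ≤ j.val ∧ k.val < 2 then
    -WW i ⟨k.val % 2, Nat.mod_lt _ (by norm_num)⟩ ⟨j.val % 2, Nat.mod_lt _ (by norm_num)⟩
  else 0

theorem BB_alt : ∀ i j k, BB i k j = -BB i j k := by decide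

theorem B00 : ∀ (i : Fin 3) (a c : Fin 2), BB i (Fin.castAdd 2 a) (Fin.castAdd 2 c) = 0 := by
  decide

theorem B01 : ∀ (i : Fin 3) (a c : Fin 2), BB i (Fin.castAdd 2 a) (Fin.natAdd 2 c) = WW i a c := by
  decide

theorem B10 : ∀ (i : Fin 3) (a c : Fin 2), BB i (Fin.natAdd 2 c) (Fin.castAdd 2 a) = -WW i a c := by
  decide

theorem B11 : ∀ (i : Fin 3) (a c : Fin 2), BB i (Fin.natAdd 2 a) (Fin.natAdd 2 c) = 0 := by
  decide

theorem al9_alt : ∀ (i : Fin 3) (p q : Fin 9), al9 i q p = -al9 i p q := by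
  decide

theorem sum4 (g : Fin 4 → ℤ) : ∑ p, g p =
    ∑ a : Fin 2, g (Fin.castAdd 2 a) + ∑ c : Fin 2, g (Fin.natAdd 2 c) :=
  Fin.sum_univ_add (a := 2) (b := 2) g

theorem lhs_eq9 (X Y : Fin 9 → Fin 4 → ℤ) :
    -(∑ i, ∑ p, ∑ q, ∑ p', ∑ q', al9 i p p' * BB i q q' * X p q * Y p' q') =
      ∑ a : Fin 9, ∑ q : Fin 2, (X a (Fin.castAdd 2 q) *
        (-∑ z : Fin 9 × Fin 2, K9 (a, q) z * Y z.1 (Fin.natAdd 2 z.2)) +
        (-∑ z : Fin 9 × Fin 2, K9 (a, q) z * X z.1 (Fin.natAdd 2 z.2)) *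
          Y a (Fin.castAdd 2 q)) := by
  have e1 : ∑ i, ∑ p, ∑ q, ∑ p', ∑ q', al9 i p p' * BB i q q' * X p q * Y p' q' =
      ∑ i, ∑ a : Fin 9, ∑ q : Fin 2, ∑ c : Fin 9, ∑ q' : Fin 2, al9 i a c * WW i q q' *
        X a (Fin.castAdd 2 q) * Y c (Fin.natAdd 2 q') +
      ∑ i, ∑ c : Fin 9, ∑ q : Fin 2, ∑ a : Fin 9, ∑ q' : Fin 2, al9 i c a * (-WW i q' q) *
        X c (Fin.natAdd 2 q) * Y a (Fin.castAdd 2 q') := by
    rw [← Finset.sum_add_distrib]
    refine Finset.sum_congr rfl fun i _ => ?_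
    simp only [sum4, B00, B01, B10, B11, zero_mul, mul_zero, Finset.sum_const_zero, add_zero,
      zero_add, Finset.sum_add_distrib]
    rw [add_comm]
  have e2 : ∑ i, ∑ a : Fin 9, ∑ q : Fin 2, ∑ c : Fin 9, ∑ q' : Fin 2, al9 i a c * WW i q q' *
        X a (Fin.castAdd 2 q) * Y c (Fin.natAdd 2 q') =
      ∑ a : Fin 9, ∑ q : Fin 2, X a (Fin.castAdd 2 q) *
        (∑ z : Fin 9 × Fin 2, K9 (a, q) z * Y z.1 (Fin.natAdd 2 z.2)) := by
    rw [s5]
    refine Finset.sum_congr rfl fun a _ => Finset.sum_congr rfl fun q _ => ?_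
    rw [Fintype.sum_prod_type, Finset.mul_sum]
    refine Finset.sum_congr rfl fun c _ => ?_
    rw [Finset.mul_sum]
    refine Finset.sum_congr rfl fun q' _ => ?_
    rw [K9, Finset.sum_mul, Finset.mul_sum]
    refine Finset.sum_congr rfl fun i _ => ?_
    ring
  have e3 : ∑ i, ∑ c : Fin 9, ∑ q : Fin 2, ∑ a : Fin 9, ∑ q' : Fin 2, al9 i c a * (-WW i q' q) *
        X c (Fin.natAdd 2 q) * Y a (Fin.castAdd 2 q') =
      ∑ a : Fin 9, ∑ q : Fin 2,
        (∑ z : Fin 9 × Fin 2, K9 (a, q) z * X z.1 (Fin.natAdd 2 z.2)) *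
          Y a (Fin.castAdd 2 q) := by
    have h1 : ∀ i, ∑ c : Fin 9, ∑ q : Fin 2, ∑ a : Fin 9, ∑ q' : Fin 2,
        al9 i c a * (-WW i q' q) * X c (Fin.natAdd 2 q) * Y a (Fin.castAdd 2 q') =
        ∑ a : Fin 9, ∑ q' : Fin 2, ∑ c : Fin 9, ∑ q : Fin 2,
        al9 i c a * (-WW i q' q) * X c (Fin.natAdd 2 q) * Y a (Fin.castAdd 2 q') := fun i => s4 _
    rw [Finset.sum_congr rfl fun i _ => h1 i, s5]
    refine Finset.sum_congr rfl fun a _ => Finset.sum_congr rfl fun q _ => ?_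
    rw [Fintype.sum_prod_type, Finset.sum_mul]
    refine Finset.sum_congr rfl fun c _ => ?_
    rw [Finset.sum_mul]
    refine Finset.sum_congr rfl fun q' _ => ?_
    rw [K9, Finset.sum_mul, Finset.sum_mul]
    refine Finset.sum_congr rfl fun i _ => ?_
    rw [al9_alt i a c]
    ring
  rw [e1, e2, e3]
  simp only [mul_neg, neg_mul, Finset.sum_add_distrib, Finset.sum_neg_distrib]
  ring

theorem mm (A B : Fin 9 × Fin 2 → Fin 9 × Fin 2 → ℤ)
    (hAB : ∀ x y, ∑ z, A x z * B z y = if x = y then 1 else 0)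
    (u : Fin 9 × Fin 2 → ℤ) (x : Fin 9 × Fin 2) :
    ∑ z, A x z * (∑ y, B z y * u y) = u x := by
  have h3 : ∑ z, A x z * (∑ y, B z y * u y) = ∑ y, (∑ z, A x z * B z y) * u y := by
    simp only [Finset.mul_sum, Finset.sum_mul]
    rw [Finset.sum_comm]
    refine Finset.sum_congr rfl fun y _ => Finset.sum_congr rfl fun z _ => ?_
    ring
  rw [h3, Finset.sum_congr rfl fun y _ => by rw [hAB x y]]
  simp

theorem tens9 : S_TENS9 := by
  refine ⟨fun i => ⟨BB i, fun j k => BB_alt i j k⟩, ?_⟩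
  let e : Fin 9 × Fin 2 ≃ Fin 18 := finProdFinEquiv
  let F : (Fin 9 → Fin 4 → ℤ) → ((Fin 2 × Fin 18) ⊕ (Fin 8 × Fin 0) → ℤ) :=
    fun X => Sum.elim (fun hj => if hj.1 = 0 then
        X (e.symm hj.2).1 (Fin.castAdd 2 (e.symm hj.2).2)
      else -∑ z : Fin 9 × Fin 2, K9 (e.symm hj.2) z * X z.1 (Fin.natAdd 2 z.2))
      (fun z => z.2.elim0)
  let Gs : ((Fin 2 × Fin 18) ⊕ (Fin 8 × Fin 0) → ℤ) → Fin 9 → (Fin 2 ⊕ Fin 2 → ℤ) :=
    fun v p => Sum.elim (fun c => v (Sum.inl (0, e (p, c))))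
      (fun c => -∑ z : Fin 9 × Fin 2, L9 (p, c) z * v (Sum.inl (1, e z)))
  let G : ((Fin 2 × Fin 18) ⊕ (Fin 8 × Fin 0) → ℤ) → (Fin 9 → Fin 4 → ℤ) :=
    fun v p q => Gs v p (finSumFinEquiv.symm (q : Fin (2 + 2)))
  have G1 : ∀ v p (c : Fin 2), G v p (Fin.castAdd 2 c) = v (Sum.inl (0, e (p, c))) := by
    intro v p c
    show Gs v p (finSumFinEquiv.symm (Fin.castAdd 2 c)) = _
    rw [finSumFinEquiv_symm_apply_castAdd]
    rfl
  have G2 : ∀ v p (c : Fin 2), G v p (Fin.natAdd 2 c) =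
      -∑ z : Fin 9 × Fin 2, L9 (p, c) z * v (Sum.inl (1, e z)) := by
    intro v p c
    show Gs v p (finSumFinEquiv.symm (Fin.natAdd 2 c)) = _
    rw [finSumFinEquiv_symm_apply_natAdd]
    rfl
  have F0 : ∀ X j, F X (Sum.inl (0, j)) = X (e.symm j).1 (Fin.castAdd 2 (e.symm j).2) := by
    intro X j
    simp [F]
  have F1 : ∀ X j, F X (Sum.inl (1, j)) =
      -∑ z : Fin 9 × Fin 2, K9 (e.symm j) z * X z.1 (Fin.natAdd 2 z.2) := by
    intro X j
    simp [F]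
  have ext4 : ∀ X Y : Fin 9 → Fin 4 → ℤ,
      (∀ p (c : Fin 2), X p (Fin.castAdd 2 c) = Y p (Fin.castAdd 2 c)) →
      (∀ p (c : Fin 2), X p (Fin.natAdd 2 c) = Y p (Fin.natAdd 2 c)) → X = Y := by
    intro X Y hX hY
    funext p q
    exact Fin.addCases (m := 2) (n := 2) (motive := fun q => X p q = Y p q)
      (fun a => hX p a) (fun a => hY p a) q
  refine ⟨{ toFun := F, invFun := G, left_inv := ?_, right_inv := ?_, map_add' := ?_ }, ?_⟩
  · intro X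
    apply ext4
    · intro p c
      rw [G1, F0, Equiv.symm_apply_apply]
    · intro p c
      rw [G2]
      simp only [F1, Equiv.symm_apply_apply, mul_neg, Finset.sum_neg_distrib, neg_neg]
      exact mm L9 K9 LK (fun z => X z.1 (Fin.natAdd 2 z.2)) (p, c)
  · intro v
    funext x
    rcases x with ⟨h, j⟩ | z
    · fin_cases h
      · show F (G v) (Sum.inl (0, j)) = v (Sum.inl (0, j))
        rw [F0, G1]
        simp
      · show F (G v) (Sum.inl (1, j)) = v (Sum.inl (1, j))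
        rw [F1]
        simp only [G2, mul_neg, Finset.sum_neg_distrib, neg_neg]
        have := mm K9 L9 KL (fun z => v (Sum.inl (1, e z))) (e.symm j)
        rw [Equiv.apply_symm_apply] at this
        exact this
    · exact z.2.elim0
  · intro X Y
    funext x
    rcases x with ⟨h, j⟩ | z
    · fin_cases h
      · show F (X + Y) (Sum.inl (0, j)) = F X (Sum.inl (0, j)) + F Y (Sum.inl (0, j))
        rw [F0, F0, F0]
        rfl
      · show F (X + Y) (Sum.inl (1, j)) = F X (Sum.inl (1, j)) + F Y (Sum.inl (1, j))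
        rw [F1, F1, F1]
        simp only [Pi.add_apply, mul_add, Finset.sum_add_distrib]
        ring
    · exact z.2.elim0
  · intro X Y
    show -(∑ i, ∑ p, ∑ q, ∑ p', ∑ q', al9 i p p' * BB i q q' * X p q * Y p' q') =
      F X ⬝ᵥ (gram 18 0 1).mulVec (F Y)
    rw [lhs_eq9, gram_eq, ← Equiv.sum_comp e, Fintype.sum_prod_type]
    refine Finset.sum_congr rfl fun a _ => Finset.sum_congr rfl fun q _ => ?_
    rw [F0, F0, F1, F1, Equiv.symm_apply_apply]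

end Pool.Agent.Y675.UFT
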